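import Mathlib

/-!
MP_f8e91b_al, Q1: triangular, fractional and ordinary minimal rank of partially specified matrices.

Over every field `F` we give a `6 × 6` partially specified matrix `A` with
`tmr A = fmr A = 3` and `mr A = 4`; so the asserted dichotomy
`tmr < fmr < mr` or `tmr = fmr = mr` fails over every field.

Idea: a completion of rank `3` amounts to a solution `x, y, z` in `F` of `x ^ 2 = 0`,
`x * y + z * x = 1`, which does not exist, while a completion of `A ⊗ I_b` of rank `3 b` amounts to
a solution in the `b × b` matrices, and for `b = 2` the matrix units `x = e₁₂`, `y = z = e₂₁` are one.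
-/

set_option autoImplicit false

open Matrix Module

namespace Pool.Agent.Results.MP_f8e91b_al.MinimalRanks

universe u

variable {F : Type u} [Field F] {m n : ℕ}

/-- The pattern of knowns of a partially specified matrix `A` (`none` means unspecified). -/
def pattern (A : Fin m → Fin n → Option F) : Set (Fin m × Fin n) :=
  {p | ∃ a, A p.1 p.2 = some a}

/-- `B` is a completion of `A`. -/
def IsCompletion (A : Fin m → Fin n → Option F) (B : Matrix (Fin m) (Fin n) F) : Prop :=
  ∀ i j a, A i j = some a → B i j = a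

/-- The minimal rank of `A`. -/
noncomputable def mr (A : Fin m → Fin n → Option F) : ℕ :=
  sInf {k | ∃ B : Matrix (Fin m) (Fin n) F, IsCompletion A B ∧ B.rank = k}

/-- Triangular patterns. -/
def Triangular (T : Set (Fin m × Fin n)) : Prop :=
  ∀ i j k l, (i, j) ∈ T → (k, l) ∈ T → (i, l) ∈ T ∨ (k, j) ∈ T

/-- `T` is a maximal triangular subpattern of `J`. -/
def MaximalTriangular (J T : Set (Fin m × Fin n)) : Prop :=
  Triangular T ∧ T ⊆ J ∧ ∀ S : Set (Fin m × Fin n), Triangular S → T ⊆ S → S ⊆ J → S = T

open Classical in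
/-- `A | T`: keep only the known entries indexed by `T`. -/
noncomputable def restrict (A : Fin m → Fin n → Option F) (T : Set (Fin m × Fin n)) :
    Fin m → Fin n → Option F :=
  fun i j => if (i, j) ∈ T then A i j else none

/-- The triangular minimal rank: the maximum of `mr (A | T)` over all maximal triangular
subpatterns `T` of the pattern of knowns of `A`. -/
noncomputable def tmr (A : Fin m → Fin n → Option F) : ℕ :=
  sSup {k | ∃ T, MaximalTriangular (pattern A) T ∧ mr (restrict A T) = k}

/-- `B` is a completion of `A ⊗ I_b`: the block of a known entry `a` is `a I_b`, the blocks of the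
unspecified entries are arbitrary. -/
def IsBlockCompletion (A : Fin m → Fin n → Option F) (b : ℕ)
    (B : Matrix (Fin m × Fin b) (Fin n × Fin b) F) : Prop :=
  ∀ i j a, A i j = some a → ∀ s t, B (i, s) (j, t) = if s = t then a else 0

/-- `mr_b A = mr (A ⊗ I_b)`. -/
noncomputable def mrBlock (A : Fin m → Fin n → Option F) (b : ℕ) : ℕ :=
  sInf {k | ∃ B : Matrix (Fin m × Fin b) (Fin n × Fin b) F, IsBlockCompletion A b B ∧ B.rank = k}

/-- The fractional minimal rank: the infimum of `mr_b A / b` over all `b ≥ 1`. -/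
noncomputable def fmr (A : Fin m → Fin n → Option F) : ℝ :=
  ⨅ b : ℕ+, (mrBlock A (b : ℕ) : ℝ) / ((b : ℕ) : ℝ)

/-! ### triangular patterns -/

/-- The greedy completion of a triangular pattern. -/
theorem greedy (a : Fin m → Fin n → F) (T : Set (Fin m × Fin n)) (hT : Triangular T) :
    ∀ (k : ℕ) (R : Finset (Fin m)), R.card = k →
    ∃ C : Fin m → Fin n → F, (∀ i ∈ R, ∀ j, (i, j) ∈ T → C i j = a i j) ∧
      ∀ (b : ℕ) (M : Fin m × Fin b → Fin n × Fin b → F),
        (∀ i ∈ R, ∀ j, (i, j) ∈ T → ∀ s t, M (i, s) (j, t) = if s = t then a i j else 0) →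
        b * finrank F (Submodule.span F (C '' (R : Set (Fin m)))) ≤
          finrank F (Submodule.span F (M '' {p | p.1 ∈ R})) := by
  classical
  intro k
  induction k with
  | zero =>
    intro R hR
    have hR0 : R = ∅ := Finset.card_eq_zero.1 hR
    subst hR0
    refine ⟨fun _ _ => 0, by simp, ?_⟩
    intro b M _
    rw [Finset.coe_empty, Set.image_empty, Submodule.span_empty, finrank_bot, mul_zero]
    exact Nat.zero_le _
  | succ k ih =>
    intro R hR
    have hne : R.Nonempty := by
      rw [← Finset.card_pos]; omega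
    obtain ⟨i0, hi0, hmin⟩ := R.exists_min_image
      (fun i => (Finset.univ.filter (fun j => (i, j) ∈ T)).card) hne
    have hsub : ∀ i ∈ R, ∀ j, (i0, j) ∈ T → (i, j) ∈ T := by
      intro i hi j hj
      by_contra hcon
      have h1 : (Finset.univ.filter (fun j => (i, j) ∈ T)) ⊂
          (Finset.univ.filter (fun j => (i0, j) ∈ T)) := by
        rw [Finset.ssubset_iff_of_subset]
        · exact ⟨j, by simpa using hj, by simpa using hcon⟩
        · intro l hl
          have hl' : (i, l) ∈ T := by simpa using hl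
          rcases hT i0 j i l hj hl' with h | h
          · simpa using h
          · exact absurd h hcon
      have h2 := Finset.card_lt_card h1
      have h3 := hmin i hi
      omega
    obtain ⟨C', hC', hM'⟩ := ih (R.erase i0) (by rw [Finset.card_erase_of_mem hi0]; omega)
    let S := {j : Fin n // (i0, j) ∈ T}
    let ρ : (Fin n → F) →ₗ[F] (S → F) := LinearMap.funLeft F F (Subtype.val : S → Fin n)
    have hρ : ∀ i ∈ R.erase i0, ρ (C' i) = ρ (a i) := by
      intro i hi
      ext j
      exact hC' i hi j.1 (hsub i (Finset.mem_of_mem_erase hi) j.1 j.2)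
    have hRins : (R : Set (Fin m)) = insert i0 ((R.erase i0 : Finset (Fin m)) : Set (Fin m)) := by
      rw [← Finset.coe_insert, Finset.insert_erase hi0]
    by_cases hcase : ρ (a i0) ∈ (Submodule.span F (C' '' ((R.erase i0 : Finset (Fin m)) :
        Set (Fin m)))).map ρ
    · obtain ⟨v, hv, hv2⟩ := hcase
      refine ⟨Function.update C' i0 v, ?_, ?_⟩
      · intro i hi j hij
        by_cases h : i = i0
        · subst h
          rw [Function.update_self]
          have := congrFun hv2 ⟨j, hij⟩
          exact this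
        · rw [Function.update_of_ne h]
          exact hC' i (Finset.mem_erase.2 ⟨h, hi⟩) j hij
      · intro b M hM
        have h1 : Submodule.span F (Function.update C' i0 v '' (R : Set (Fin m))) ≤
            Submodule.span F (C' '' ((R.erase i0 : Finset (Fin m)) : Set (Fin m))) := by
          rw [Submodule.span_le]
          rintro w ⟨i, hi, rfl⟩
          by_cases h : i = i0
          · subst h
            rw [Function.update_self]
            exact hv
          · rw [Function.update_of_ne h]
            exact Submodule.subset_span ⟨i, Finset.mem_coe.2 (Finset.mem_erase.2 ⟨h, hi⟩), rfl⟩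
        have h2 := hM' b M (fun i hi j hij s t => hM i (Finset.mem_of_mem_erase hi) j hij s t)
        have h3 : Submodule.span F (M '' {p | p.1 ∈ R.erase i0}) ≤
            Submodule.span F (M '' {p | p.1 ∈ R}) := by
          apply Submodule.span_mono
          apply Set.image_mono
          intro p hp
          exact Finset.mem_of_mem_erase hp
        calc b * finrank F (Submodule.span F (Function.update C' i0 v '' (R : Set (Fin m))))
            ≤ b * finrank F (Submodule.span F (C' '' ((R.erase i0 : Finset (Fin m)) :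
              Set (Fin m)))) := Nat.mul_le_mul_left _ (Submodule.finrank_mono h1)
          _ ≤ _ := h2
          _ ≤ _ := Submodule.finrank_mono h3
    · obtain ⟨φ, hφ1, hφ2⟩ := Submodule.exists_dual_map_eq_bot_of_notMem hcase inferInstance
      refine ⟨Function.update C' i0 (a i0), ?_, ?_⟩
      · intro i hi j hij
        by_cases h : i = i0
        · subst h
          rw [Function.update_self]
        · rw [Function.update_of_ne h]
          exact hC' i (Finset.mem_erase.2 ⟨h, hi⟩) j hij
      · intro b M hM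
        have h1 : finrank F (Submodule.span F (Function.update C' i0 (a i0) ''
            (R : Set (Fin m)))) ≤ finrank F (Submodule.span F (C' '' ((R.erase i0 :
              Finset (Fin m)) : Set (Fin m)))) + 1 := by
          have h11 : Submodule.span F (Function.update C' i0 (a i0) '' (R : Set (Fin m))) ≤
              Submodule.span F (C' '' ((R.erase i0 : Finset (Fin m)) : Set (Fin m))) ⊔
                Submodule.span F {a i0} := by
            rw [Submodule.span_le]
            rintro w ⟨i, hi, rfl⟩
            by_cases h : i = i0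
            · subst h
              rw [Function.update_self]
              exact Submodule.mem_sup_right (Submodule.mem_span_singleton_self _)
            · rw [Function.update_of_ne h]
              exact Submodule.mem_sup_left (Submodule.subset_span
                ⟨i, Finset.mem_coe.2 (Finset.mem_erase.2 ⟨h, hi⟩), rfl⟩)
          refine (Submodule.finrank_mono h11).trans ?_
          refine (Submodule.finrank_add_le_finrank_add_finrank _ _).trans ?_
          have := finrank_span_le_card (R := F) ({a i0} : Set (Fin n → F))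
          simp only [Set.toFinset_singleton, Finset.card_singleton] at this
          omega
        have h2 := hM' b M (fun i hi j hij s t => hM i (Finset.mem_of_mem_erase hi) j hij s t)
        -- the functional on the blocks
        let Φ : (Fin n × Fin b → F) →ₗ[F] (Fin b → F) :=
          LinearMap.pi (fun t => φ.comp (LinearMap.funLeft F F (fun j : S => (j.1, t))))
        have hΦ : ∀ i ∈ R, ∀ s t, Φ (M (i, s)) t = if s = t then φ (ρ (a i)) else 0 := by
          intro i hi s t
          change φ (fun j : S => M (i, s) (j.1, t)) = _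
          have : (fun j : S => M (i, s) (j.1, t)) = if s = t then ρ (a i) else 0 := by
            ext j
            rw [hM i hi j.1 (hsub i hi j.1 j.2) s t]
            split_ifs <;> rfl
          rw [this]
          split_ifs
          · rfl
          · exact map_zero φ
        have hΦ0 : ∀ i ∈ R.erase i0, φ (ρ (a i)) = 0 := by
          intro i hi
          have : φ (ρ (a i)) ∈ Submodule.map φ ((Submodule.span F (C' '' ((R.erase i0 :
              Finset (Fin m)) : Set (Fin m)))).map ρ) := by
            refine ⟨ρ (a i), ⟨C' i, Submodule.subset_span ⟨i, Finset.mem_coe.2 hi, rfl⟩,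
              hρ i hi⟩, rfl⟩
          rw [hφ2, Submodule.mem_bot] at this
          exact this
        set W := Submodule.span F (M '' {p | p.1 ∈ R}) with hW
        set W' := Submodule.span F (M '' {p | p.1 ∈ R.erase i0}) with hW'
        have hWW : W' ≤ W := by
          apply Submodule.span_mono
          apply Set.image_mono
          intro p hp
          exact Finset.mem_of_mem_erase hp
        have hker : W' ≤ LinearMap.ker Φ := by
          rw [hW', Submodule.span_le]
          rintro w ⟨⟨i, s⟩, hi, rfl⟩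
          rw [SetLike.mem_coe, LinearMap.mem_ker]
          ext t
          have hi' : i ∈ R.erase i0 := hi
          rw [hΦ i (Finset.mem_of_mem_erase hi') s t, hΦ0 i hi']
          simp
        have hrange : LinearMap.range (Φ.domRestrict W) = ⊤ := by
          rw [LinearMap.range_domRestrict, eq_top_iff]
          have hsing : ∀ s : Fin b, Pi.single s (1 : F) ∈ Submodule.map Φ W := by
            intro s
            refine ⟨(φ (ρ (a i0)))⁻¹ • M (i0, s), Submodule.smul_mem _ _
              (Submodule.subset_span ⟨(i0, s), hi0, rfl⟩), ?_⟩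
            ext t
            rw [map_smul, Pi.smul_apply, hΦ i0 hi0 s t, Pi.single_apply]
            by_cases hst : s = t
            · subst hst
              simp [hφ1]
            · simp [hst, Ne.symm hst]
          intro v _
          rw [show v = ∑ s, v s • Pi.single s (1 : F) by
            ext t
            simp [Finset.sum_apply, Pi.single_apply]]
          exact Submodule.sum_mem _ (fun s _ => Submodule.smul_mem _ _ (hsing s))
        have hrk := LinearMap.finrank_range_add_finrank_ker (Φ.domRestrict W)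
        rw [hrange, finrank_top, Module.finrank_fin_fun] at hrk
        have hle : finrank F W' ≤ finrank F (LinearMap.ker (Φ.domRestrict W)) := by
          have e := (Submodule.comapSubtypeEquivOfLe hWW).finrank_eq
          rw [← e]
          apply Submodule.finrank_mono
          intro w hw
          rw [LinearMap.mem_ker]
          exact hker hw
        calc b * finrank F (Submodule.span F (Function.update C' i0 (a i0) ''
              (R : Set (Fin m))))
            ≤ b * (finrank F (Submodule.span F (C' '' ((R.erase i0 :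
              Finset (Fin m)) : Set (Fin m)))) + 1) := Nat.mul_le_mul_left _ h1
          _ = b * finrank F (Submodule.span F (C' '' ((R.erase i0 :
              Finset (Fin m)) : Set (Fin m)))) + b := by ring
          _ ≤ finrank F W' + b := Nat.add_le_add_right h2 b
          _ ≤ finrank F W := by omega

theorem mr_le {A : Fin m → Fin n → Option F} {B : Matrix (Fin m) (Fin n) F}
    (h : IsCompletion A B) : mr A ≤ B.rank :=
  Nat.sInf_le ⟨B, h, rfl⟩

theorem exists_mr (A : Fin m → Fin n → Option F) :
    ∃ B : Matrix (Fin m) (Fin n) F, IsCompletion A B ∧ B.rank = mr A := by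
  have : mr A ∈ {k | ∃ B : Matrix (Fin m) (Fin n) F, IsCompletion A B ∧ B.rank = k} := by
    apply Nat.sInf_mem
    refine ⟨_, fun i j => (A i j).getD 0, ?_, rfl⟩
    intro i j a h
    simp [h]
  exact this

theorem mrBlock_le {A : Fin m → Fin n → Option F} {b : ℕ}
    {B : Matrix (Fin m × Fin b) (Fin n × Fin b) F}
    (h : IsBlockCompletion A b B) : mrBlock A b ≤ B.rank :=
  Nat.sInf_le ⟨B, h, rfl⟩

theorem exists_mrBlock (A : Fin m → Fin n → Option F) (b : ℕ) :
    ∃ B : Matrix (Fin m × Fin b) (Fin n × Fin b) F, IsBlockCompletion A b B ∧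
      B.rank = mrBlock A b := by
  have : mrBlock A b ∈ {k | ∃ B : Matrix (Fin m × Fin b) (Fin n × Fin b) F,
      IsBlockCompletion A b B ∧ B.rank = k} := by
    apply Nat.sInf_mem
    refine ⟨_, fun p q => if p.2 = q.2 then (A p.1 q.1).getD 0 else 0, ?_, rfl⟩
    intro i j a h s t
    simp [h]
  exact this

theorem mul_mr_restrict_le (A : Fin m → Fin n → Option F) {T : Set (Fin m × Fin n)}
    (hT : Triangular T) (hTA : T ⊆ pattern A) (b : ℕ) :
    b * mr (restrict A T) ≤ mrBlock A b := by
  classical
  obtain ⟨C, hC, hM⟩ := greedy (fun i j => (A i j).getD 0) T hT _ Finset.univ rfl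
  obtain ⟨M, hMc, hMr⟩ := exists_mrBlock A b
  have h1 : mr (restrict A T) ≤ (Matrix.of C).rank := by
    apply mr_le
    intro i j x hx
    unfold restrict at hx
    split_ifs at hx with hij
    · rw [Matrix.of_apply, hC i (Finset.mem_univ i) j hij, hx]
      rfl
  have h2 := hM b M (by
    intro i _ j hij s t
    obtain ⟨x, hx⟩ := hTA hij
    have hx' : A i j = some x := hx
    rw [hMc i j x hx' s t, hx']
    rfl)
  rw [← hMr, Matrix.rank_eq_finrank_span_row]
  rw [Matrix.rank_eq_finrank_span_row] at h1
  calc b * mr (restrict A T) ≤ b * _ := Nat.mul_le_mul_left _ h1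
    _ = b * finrank F (Submodule.span F (C '' ((Finset.univ : Finset (Fin m)) :
          Set (Fin m)))) := by
        rw [Finset.coe_univ, Set.image_univ]
        rfl
    _ ≤ _ := h2
    _ = _ := by
        have hu : {p : Fin m × Fin b | p.1 ∈ (Finset.univ : Finset (Fin m))} = Set.univ := by
          ext p
          simp
        have hv : (M : Fin m × Fin b → Fin n × Fin b → F) ''
            {p : Fin m × Fin b | p.1 ∈ (Finset.univ : Finset (Fin m))} = Set.range M.row := by
          rw [hu, Set.image_univ]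
          rfl
        exact congrArg (fun s : Set (Fin n × Fin b → F) => finrank F (Submodule.span F s)) hv

theorem tmr_bdd (A : Fin m → Fin n → Option F) :
    BddAbove {k | ∃ T, MaximalTriangular (pattern A) T ∧ mr (restrict A T) = k} := by
  refine ⟨n, ?_⟩
  rintro k ⟨T, _, rfl⟩
  obtain ⟨B, _, hB⟩ := exists_mr (restrict A T)
  rw [← hB]
  simpa using B.rank_le_width

theorem exists_maximal (J T : Set (Fin m × Fin n)) (hT : Triangular T) (hTJ : T ⊆ J) :
    ∃ S, T ⊆ S ∧ MaximalTriangular J S := by
  obtain ⟨S, hTS, hS⟩ := Finite.exists_le_maximal (p := fun S : Set (Fin m × Fin n) =>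
    Triangular S ∧ S ⊆ J) ⟨hT, hTJ⟩
  refine ⟨S, hTS, hS.prop.1, hS.prop.2, ?_⟩
  intro S' h1 h2 h3
  exact le_antisymm (hS.le_of_ge ⟨h1, h3⟩ h2) h2

theorem tmr_le_fmr (A : Fin m → Fin n → Option F) : (tmr A : ℝ) ≤ fmr A := by
  unfold fmr
  apply le_ciInf
  intro b
  have hb : (0 : ℝ) < ((b : ℕ) : ℝ) := by exact_mod_cast b.pos
  rw [le_div_iff₀ hb]
  have h : tmr A * (b : ℕ) ≤ mrBlock A b := by
    obtain ⟨S, _, hS⟩ := exists_maximal (pattern A) ∅ (by intro i j k l h; simp at h) (by simp)
    have hmem : tmr A ∈ {k | ∃ T, MaximalTriangular (pattern A) T ∧ mr (restrict A T) = k} :=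
      Nat.sSup_mem ⟨_, S, hS, rfl⟩ (tmr_bdd A)
    obtain ⟨T, hT, hk⟩ := hmem
    rw [← hk, mul_comm]
    exact mul_mr_restrict_le A hT.1 hT.2.1 b
  exact_mod_cast h

theorem fmr_le (A : Fin m → Fin n → Option F) (b : ℕ) (hb : 0 < b) :
    fmr A ≤ (mrBlock A b : ℝ) / (b : ℝ) := by
  unfold fmr
  refine ciInf_le (f := fun b : ℕ+ => (mrBlock A (b : ℕ) : ℝ) / ((b : ℕ) : ℝ)) ?_ ⟨b, hb⟩
  refine ⟨0, ?_⟩
  rintro x ⟨c, rfl⟩
  positivity

/-! ### the example -/

/-- the example -/
def ex (F : Type u) [Field F] : Fin 6 → Fin 6 → Option F :=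
  ![![some 1, some 0, some 0, none, some 1, some 1],
    ![some 0, some 1, some 0, none, some 0, none],
    ![some 0, some 0, some 1, some (-1), none, some (-1)],
    ![none, none, some 1, some 0, some 0, none],
    ![some 0, some 1, none, some 0, some 0, some 0],
    ![none, some (-1), some 1, none, some 0, some (-1)]]

/-- a matrix of rank at most three with an identity block -/
theorem schur (B : Matrix (Fin 6) (Fin 6) F) (hB : B.rank ≤ 3)
    (h00 : B 0 0 = 1) (h01 : B 0 1 = 0) (h02 : B 0 2 = 0)
    (h10 : B 1 0 = 0) (h11 : B 1 1 = 1) (h12 : B 1 2 = 0)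
    (h20 : B 2 0 = 0) (h21 : B 2 1 = 0) (h22 : B 2 2 = 1) (i j : Fin 6) :
    B i j = B i 0 * B 0 j + B i 1 * B 1 j + B i 2 * B 2 j := by
  by_contra hne
  have hdet : (B.submatrix ![0, 1, 2, i] ![0, 1, 2, j]).det ≠ 0 := by
    have hsub : B.submatrix ![0, 1, 2, i] ![0, 1, 2, j] =
        !![1, 0, 0, B 0 j; 0, 1, 0, B 1 j; 0, 0, 1, B 2 j; B i 0, B i 1, B i 2, B i j] := by
      ext a b
      fin_cases a <;> fin_cases b <;>
        simp [h00, h01, h02, h10, h11, h12, h20, h21, h22]
    have : (B.submatrix ![0, 1, 2, i] ![0, 1, 2, j]).det =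
        B i j - (B i 0 * B 0 j + B i 1 * B 1 j + B i 2 * B 2 j) := by
      rw [hsub, Matrix.det_succ_row_zero]
      simp [Fin.sum_univ_succ, Matrix.det_fin_three, Fin.succAbove]
      ring
    rw [this]
    exact sub_ne_zero.2 hne
  have h1 : (B.submatrix ![0, 1, 2, i] ![0, 1, 2, j]).rank = 4 := by
    have := Matrix.rank_of_isUnit (B.submatrix ![0, 1, 2, i] ![0, 1, 2, j])
      ((Matrix.isUnit_iff_isUnit_det _).2 (isUnit_iff_ne_zero.2 hdet))
    simpa using this
  have h2 := Matrix.rank_submatrix_le B ![0, 1, 2, i] ![0, 1, 2, j]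
  omega

theorem ex_mr_ge : 4 ≤ mr (ex F) := by
  obtain ⟨B, hB, hr⟩ := exists_mr (ex F)
  by_contra hlt
  have h3 : B.rank ≤ 3 := by omega
  have key := schur B h3 (hB 0 0 _ rfl) (hB 0 1 _ rfl) (hB 0 2 _ rfl)
    (hB 1 0 _ rfl) (hB 1 1 _ rfl) (hB 1 2 _ rfl)
    (hB 2 0 _ rfl) (hB 2 1 _ rfl) (hB 2 2 _ rfl)
  have e33 := key 3 3
  have e34 := key 3 4
  have e43 := key 4 3
  have e44 := key 4 4
  have e45 := key 4 5
  have e54 := key 5 4
  have e55 := key 5 5
  rw [hB 3 3 _ rfl, hB 3 2 _ rfl, hB 2 3 _ rfl] at e33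
  rw [hB 3 4 _ rfl, hB 0 4 _ rfl, hB 1 4 _ rfl, hB 3 2 _ rfl] at e34
  rw [hB 4 3 _ rfl, hB 4 0 _ rfl, hB 4 1 _ rfl, hB 2 3 _ rfl] at e43
  rw [hB 4 4 _ rfl, hB 4 0 _ rfl, hB 4 1 _ rfl, hB 1 4 _ rfl] at e44
  rw [hB 4 5 _ rfl, hB 4 0 _ rfl, hB 4 1 _ rfl, hB 2 5 _ rfl] at e45
  rw [hB 5 4 _ rfl, hB 0 4 _ rfl, hB 1 4 _ rfl, hB 5 2 _ rfl] at e54
  rw [hB 5 5 _ rfl, hB 0 5 _ rfl, hB 5 1 _ rfl, hB 5 2 _ rfl, hB 2 5 _ rfl] at e55
  have a1 : B 2 4 = - B 3 0 := by linear_combination -e34
  have a2 : B 1 3 = B 4 2 := by linear_combination -e43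
  have a3 : B 1 5 = B 4 2 := by linear_combination -e45
  have a4 : B 5 0 = B 3 0 := by rw [a1] at e54; linear_combination -e54
  have a5 : B 5 0 = B 1 5 := by linear_combination -e55
  have a6 : B 4 2 = B 3 0 := by rw [← a3, ← a5, a4]
  rw [a1, a6] at e44
  have a7 : B 3 0 = 0 := by
    have : B 3 0 * B 3 0 = 0 := by linear_combination e44
    exact mul_self_eq_zero.1 this
  rw [a2, a6, a7] at e33
  have : (1 : F) = 0 := by linear_combination e33
  exact one_ne_zero this

theorem ex_mr_le : mr (ex F) ≤ 4 := by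
  let P : Matrix (Fin 6) (Fin 4) F :=
    !![1, 0, 0, 0; 0, 1, 0, 0; 0, 0, 1, 0; 0, 0, 1, 1; 0, 1, 0, 0; 0, -1, 1, 0]
  let Q : Matrix (Fin 4) (Fin 6) F :=
    !![1, 0, 0, 0, 1, 1; 0, 1, 0, 0, 0, 0; 0, 0, 1, -1, 0, -1; 0, 0, 0, 1, 0, 0]
  have h : IsCompletion (ex F) (P * Q) := by
    intro i j a ha
    fin_cases i <;> fin_cases j <;>
      simp [ex, P, Q, Matrix.mul_apply, Fin.sum_univ_succ] at ha ⊢ <;>
      exact ha
  refine (mr_le h).trans ((Matrix.rank_mul_le_left P Q).trans ?_)
  simpa using P.rank_le_width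

theorem ex_mrBlock_le : mrBlock (ex F) 2 ≤ 6 := by
  let X : Matrix (Fin 2) (Fin 2) F := !![0, 1; 0, 0]
  let Y : Matrix (Fin 2) (Fin 2) F := !![0, 0; 1, 0]
  let V : Fin 6 → Fin 3 → Matrix (Fin 2) (Fin 2) F :=
    ![![1, 0, 0], ![0, 1, 0], ![0, 0, 1], ![X, Y, 1], ![0, 1, X], ![X, -1, 1]]
  let U : Fin 3 → Fin 6 → Matrix (Fin 2) (Fin 2) F :=
    ![![1, 0, 0, Y, 1, 1], ![0, 1, 0, X, 0, X], ![0, 0, 1, -1, -X, -1]]
  let P : Matrix (Fin 6 × Fin 2) (Fin 3 × Fin 2) F := fun p q => V p.1 q.1 p.2 q.2
  let Q : Matrix (Fin 3 × Fin 2) (Fin 6 × Fin 2) F := fun p q => U p.1 q.1 p.2 q.2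
  have hPQ : ∀ i s j t, (P * Q) (i, s) (j, t) = (∑ k, V i k * U k j) s t := by
    intro i s j t
    rw [Matrix.mul_apply, Fintype.sum_prod_type, Matrix.sum_apply]
    rfl
  have h : IsBlockCompletion (ex F) 2 (P * Q) := by
    intro i j a ha s t
    rw [hPQ]
    fin_cases i <;> fin_cases j <;> fin_cases s <;> fin_cases t <;>
      simp [ex, V, U, X, Y, Fin.sum_univ_succ] at ha ⊢ <;>
      exact ha
  refine (mrBlock_le h).trans ((Matrix.rank_mul_le_left P Q).trans ?_)
  simpa using P.rank_le_card_width

theorem ex_tmr_ge : 3 ≤ tmr (ex F) := by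
  let T0 : Set (Fin 6 × Fin 6) := {p | p.1 < 3 ∧ p.2 < 3}
  have hT0 : Triangular T0 := by
    intro i j k l h1 h2
    exact Or.inl ⟨h1.1, h2.2⟩
  have hT0J : T0 ⊆ pattern (ex F) := by
    rintro ⟨i, j⟩ ⟨h1, h2⟩
    have h1' : i < 3 := h1
    have h2' : j < 3 := h2
    fin_cases i <;> fin_cases j <;> first | exact ⟨_, rfl⟩ | (exfalso; revert h1' h2'; decide)
  obtain ⟨T, hTT, hT⟩ := exists_maximal _ _ hT0 hT0J
  obtain ⟨B, hB, hr⟩ := exists_mr (restrict (ex F) T)
  have hmem : mr (restrict (ex F) T) ≤ tmr (ex F) := le_csSup (tmr_bdd _) ⟨T, hT, rfl⟩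
  have hB' : ∀ i j : Fin 6, i < 3 → j < 3 → ∀ a, ex F i j = some a → B i j = a := by
    intro i j hi hj a ha
    apply hB i j a
    unfold restrict
    rw [if_pos (hTT ⟨hi, hj⟩)]
    exact ha
  have h1 : B.submatrix ![0, 1, 2] ![0, 1, 2] = 1 := by
    ext i j
    fin_cases i <;> fin_cases j <;>
      exact hB' _ _ (by decide) (by decide) _ rfl
  have h2 : (B.submatrix ![0, 1, 2] ![0, 1, 2]).rank = 3 := by
    rw [h1, Matrix.rank_one]
    rfl
  have h3 := Matrix.rank_submatrix_le B ![0, 1, 2] ![0, 1, 2]
  omega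

/-- Over every field `F` there is a `6 × 6` partially specified matrix `A` whose triangular and
fractional minimal ranks are both `3` and whose minimal rank is `4`. -/
theorem result (F : Type u) [Field F] : ∃ A : Fin 6 → Fin 6 → Option F,
    tmr A = 3 ∧ fmr A = 3 ∧ mr A = 4 := by
  have h1 : (3 : ℝ) ≤ (tmr (ex F) : ℝ) := by exact_mod_cast ex_tmr_ge
  have h2 := tmr_le_fmr (ex F)
  have h3 : fmr (ex F) ≤ 3 := by
    refine (fmr_le (ex F) 2 (by norm_num)).trans ?_
    have : (mrBlock (ex F) 2 : ℝ) ≤ 6 := by exact_mod_cast ex_mrBlock_le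
    push_cast
    linarith
  refine ⟨ex F, ?_, le_antisymm h3 (h1.trans h2), le_antisymm ex_mr_le ex_mr_ge⟩
  have h4 : (tmr (ex F) : ℝ) ≤ 3 := h2.trans h3
  have h5 : tmr (ex F) ≤ 3 := by exact_mod_cast h4
  exact le_antisymm h5 ex_tmr_ge

end Pool.Agent.Results.MP_f8e91b_al.MinimalRanks
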